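import Pool.Agent.Q187.Mass.Cross

/-!
# MP_77d991_gt, Q1: the least upper bound of Gromov's mass of a normed unit ball

For every `d ≥ 1` the maximum of `vol^m_M(M)` over all `o`-symmetric convex bodies `M` of `ℝ^d` is
`κ_d = π^{d/2} / Γ(d/2 + 1)`, the volume of the Euclidean unit ball, and it is attained exactly by
the ellipsoids.

Proof.  `vol^m_M(M) = vol M / D(M)`, `D(M)` the largest determinant of `d` points of `M`.  If all
points move parallel to `u` then the determinant is an affine function; hence `D` does not increase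
under Steiner symmetrization, and a symmetrization argument (minimize the moment of inertia, use
Blaschke's selection theorem) gives `vol M ≤ κ_d D(M)`.

Equality.  Let `M` be extremal, with Steiner symmetral `M₀`.  Then `M₀` is extremal, and every
boundary point of an extremal body lies in a tuple of maximal determinant (otherwise the body could
be enlarged).  Such a tuple of `M₀` lifts to one of `M` by a linear shear; comparing the supporting
hyperplanes gives Euler's relation for the midpoint function of the chords of `M` parallel to `u`,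
so this function is linear on every line through `o`.  Hence every central planar section of `M` has
a linear reflection in every direction.  A planar norm with this property is Euclidean, and the
Jordan - von Neumann theorem shows that `M` is an ellipsoid.
-/

set_option autoImplicit false

open MeasureTheory Set Metric
open scoped Nat ENNReal

namespace Pool.Agent.Results.MP_77d991_gt.GromovMass

/-- `o`-symmetric convex bodies of `ℝ^d`. -/
def IsBody {d : ℕ} (M : Set (EuclideanSpace ℝ (Fin d))) : Prop :=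
  IsCompact M ∧ Convex ℝ M ∧ (interior M).Nonempty ∧ ∀ x ∈ M, -x ∈ M

/-- The volumes `vol_d(conv{±v_1, ..., ±v_d})` of the cross-polytopes inscribed in `M`, with
`v_1, ..., v_d ∈ M` linearly independent. -/
def crossVolumes {d : ℕ} (M : Set (EuclideanSpace ℝ (Fin d))) : Set ℝ :=
  {r | ∃ v : Fin d → EuclideanSpace ℝ (Fin d), LinearIndependent ℝ v ∧ (∀ i, v i ∈ M) ∧
    r = (volume (convexHull ℝ (Set.range v ∪ Set.range (fun i => -v i)))).toReal}

/-- Gromov's mass `vol^m_M(M)` of the body `M`. -/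
noncomputable def gromovMass {d : ℕ} (M : Set (EuclideanSpace ℝ (Fin d))) : ℝ :=
  2 ^ d / d ! * ((volume M).toReal / sSup (crossVolumes M))

open Q187.Mass

variable {d : ℕ}

lemma mem_cross (hd : 0 < d) {M : Set (EuclideanSpace ℝ (Fin d))} (r : ℝ) :
    r ∈ crossVolumes M ↔ ∃ v : Fin d → EuclideanSpace ℝ (Fin d), Δ d v ≠ 0 ∧ (∀ i, v i ∈ M) ∧
      r = 2 ^ d / d ! * |Δ d v| := by
  constructor
  · rintro ⟨v, hv, hvM, rfl⟩
    refine ⟨v, ?_, hvM, cross_vol hd v⟩
    have h1 := (Module.Basis.is_basis_iff_det (EuclideanSpace.basisFun (Fin d) ℝ).toBasis (v := v)).1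
      ⟨hv, hv.span_eq_top_of_card_eq_finrank' (by simp)⟩
    exact h1.ne_zero
  · rintro ⟨v, hv, hvM, rfl⟩
    refine ⟨v, ?_, hvM, (cross_vol hd v).symm⟩
    exact ((Module.Basis.is_basis_iff_det
      (EuclideanSpace.basisFun (Fin d) ℝ).toBasis (v := v)).2 (isUnit_iff_ne_zero.2 hv)).1

/-- existence of the maximal determinant -/
lemma exists_D (hd : 0 < d) {M : Set (EuclideanSpace ℝ (Fin d))} (h : IsBody M) :
    ∃ D : ℝ, 0 < D ∧ Bd M D ∧ ∃ v : Fin d → EuclideanSpace ℝ (Fin d), (∀ i, v i ∈ M) ∧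
      |Δ d v| = D := by
  obtain ⟨h1, h2, h3, h4⟩ := h
  have hc : IsCompact {v : Fin d → EuclideanSpace ℝ (Fin d) | ∀ j, v j ∈ M} :=
    isCompact_pi_infinite fun _ => h1
  have h0 := zero_int h2 h4 h3
  have hne : {v : Fin d → EuclideanSpace ℝ (Fin d) | ∀ j, v j ∈ M}.Nonempty :=
    ⟨fun _ => 0, fun _ => interior_subset h0⟩
  obtain ⟨w, hw, hmax⟩ := hc.exists_isMaxOn hne (Δ_cont.abs).continuousOn
  obtain ⟨ε, hε, hball⟩ := Metric.isOpen_iff.1 isOpen_interior _ h0
  have h5 : Bd (closedBall (0 : EuclideanSpace ℝ (Fin d)) (ε / 2)) |Δ d w| := by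
    intro v hv
    apply hmax
    intro j
    apply interior_subset
    apply hball
    exact closedBall_subset_ball (by linarith) (hv j)
  have h6 := Δ_ball (by linarith : 0 ≤ ε / 2) h5
  have h7 : 0 < (ε / 2) ^ d := by positivity
  exact ⟨|Δ d w|, by linarith, fun v hv => hmax hv, w, hw, rfl⟩

lemma greatest (hd : 0 < d) {M : Set (EuclideanSpace ℝ (Fin d))} {D : ℝ} (hD : 0 < D)
    (hbd : Bd M D) {v : Fin d → EuclideanSpace ℝ (Fin d)} (hv : ∀ i, v i ∈ M)
    (hvD : |Δ d v| = D) : IsGreatest (crossVolumes M) (2 ^ d / d ! * D) := by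
  constructor
  · rw [mem_cross hd]
    refine ⟨v, ?_, hv, by rw [hvD]⟩
    intro h0
    rw [h0, abs_zero] at hvD
    exact hD.ne hvD
  · rintro r hr
    rw [mem_cross hd] at hr
    obtain ⟨w, -, hw, rfl⟩ := hr
    have := hbd w hw
    gcongr

lemma mass_eq (hd : 0 < d) {M : Set (EuclideanSpace ℝ (Fin d))} {D : ℝ} (hD : 0 < D)
    (hbd : Bd M D) {v : Fin d → EuclideanSpace ℝ (Fin d)} (hv : ∀ i, v i ∈ M)
    (hvD : |Δ d v| = D) : gromovMass M = (volume M).toReal / D := by
  unfold gromovMass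
  rw [(greatest hd hD hbd hv hvD).csSup_eq]
  have : (0 : ℝ) < 2 ^ d / d ! := by positivity
  field_simp

/-- the volume of the unit ball -/
lemma ball_vol (hd : 0 < d) : (volume (ball (0 : EuclideanSpace ℝ (Fin d)) 1)).toReal =
    √Real.pi ^ d / Real.Gamma (d / 2 + 1) := by
  haveI : Nonempty (Fin d) := ⟨⟨0, hd⟩⟩
  rw [EuclideanSpace.volume_ball]
  simp only [ENNReal.ofReal_one, one_pow, one_mul, Fintype.card_fin]
  rw [ENNReal.toReal_ofReal]
  have : 0 < Real.Gamma ((d : ℝ) / 2 + 1) := Real.Gamma_pos_of_pos (by positivity)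
  positivity

lemma mass_le (hd : 0 < d) {M : Set (EuclideanSpace ℝ (Fin d))} (h : IsBody M) :
    gromovMass M ≤ √Real.pi ^ d / Real.Gamma (d / 2 + 1) := by
  obtain ⟨D, hD, hbd, v, hv, hvD⟩ := exists_D hd h
  rw [mass_eq hd hD hbd hv hvD, div_le_iff₀ hD, ← ball_vol hd]
  have h1 := vol_le h.1 h.2.1 h.2.2.1 hbd
  have h2 := ENNReal.toReal_mono (ENNReal.mul_ne_top ENNReal.ofReal_ne_top
    measure_ball_lt_top.ne) h1
  rw [ENNReal.toReal_mul, ENNReal.toReal_ofReal hD.le] at h2
  linarith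

lemma mass_ellipsoid (hd : 0 < d)
    (T : EuclideanSpace ℝ (Fin d) ≃ₗ[ℝ] EuclideanSpace ℝ (Fin d)) :
    IsBody (T '' closedBall 0 1) ∧
      gromovMass (T '' closedBall 0 1) = √Real.pi ^ d / Real.Gamma (d / 2 + 1) := by
  have hcT : Continuous T := LinearMap.continuous_of_finiteDimensional T.toLinearMap
  have hdet : LinearMap.det (T : EuclideanSpace ℝ (Fin d) →ₗ[ℝ] EuclideanSpace ℝ (Fin d)) ≠ 0 :=
    (LinearEquiv.isUnit_det' T).ne_zero
  have hbody : IsBody (T '' closedBall (0 : EuclideanSpace ℝ (Fin d)) 1) := by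
    refine ⟨(isCompact_closedBall 0 1).image hcT,
      (convex_closedBall 0 1).linear_image T.toLinearMap, ?_, ?_⟩
    · have ho : IsOpen (T '' ball (0 : EuclideanSpace ℝ (Fin d)) 1) :=
        T.toContinuousLinearEquiv.toHomeomorph.isOpenMap _ isOpen_ball
      refine ⟨T 0, ?_⟩
      exact interior_maximal (image_mono ball_subset_closedBall) ho
        ⟨0, mem_ball_self one_pos, rfl⟩
    · rintro _ ⟨x, hx, rfl⟩
      refine ⟨-x, ?_, by simp⟩
      rw [mem_closedBall_zero_iff, norm_neg]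
      exact mem_closedBall_zero_iff.1 hx
  refine ⟨hbody, ?_⟩
  set D := |LinearMap.det (T : EuclideanSpace ℝ (Fin d) →ₗ[ℝ] EuclideanSpace ℝ (Fin d))| with hDdef
  have hD : 0 < D := abs_pos.2 hdet
  have hbd : Bd (T '' closedBall (0 : EuclideanSpace ℝ (Fin d)) 1) D := by
    intro v hv
    choose y hy hyv using hv
    have h1 := comp_det (T : EuclideanSpace ℝ (Fin d) →ₗ[ℝ] EuclideanSpace ℝ (Fin d)) y
    have h2 : (fun i => (T : EuclideanSpace ℝ (Fin d) →ₗ[ℝ] EuclideanSpace ℝ (Fin d)) (y i)) = v := by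
      ext1 i; exact hyv i
    rw [h2] at h1
    rw [h1, abs_mul]
    have h3 := hadamard hd y hy
    calc D * |Δ d y| ≤ D * 1 := by gcongr
      _ = D := mul_one D
  have hv : ∀ i, T (eb i) ∈ T '' closedBall (0 : EuclideanSpace ℝ (Fin d)) 1 := by
    intro i
    refine ⟨eb i, ?_, rfl⟩
    rw [mem_closedBall_zero_iff]
    simp [eb]
  have hvD : |Δ d (fun i => T (eb i))| = D := by
    have h1 := comp_det (T : EuclideanSpace ℝ (Fin d) →ₗ[ℝ] EuclideanSpace ℝ (Fin d)) (eb (d := d))
    rw [eb_det, mul_one] at h1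
    have h2 : Δ d (fun i => T (eb i)) = LinearMap.det
      (T : EuclideanSpace ℝ (Fin d) →ₗ[ℝ] EuclideanSpace ℝ (Fin d)) := h1
    rw [h2]
  rw [mass_eq hd hD hbd hv hvD]
  have h1 : volume (T '' closedBall (0 : EuclideanSpace ℝ (Fin d)) 1) =
      ENNReal.ofReal D * volume (closedBall (0 : EuclideanSpace ℝ (Fin d)) 1) :=
    Measure.addHaar_image_linearMap volume
      (T : EuclideanSpace ℝ (Fin d) →ₗ[ℝ] EuclideanSpace ℝ (Fin d)) _
  rw [h1, ENNReal.toReal_mul, ENNReal.toReal_ofReal hD.le, mul_div_cancel_left₀ _ hD.ne',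
    Measure.addHaar_closedBall _ _ zero_le_one]
  simp only [one_pow, ENNReal.ofReal_one, one_mul]
  exact ball_vol hd

/-- **The least upper bound of Gromov's mass.**  In every dimension `d ≥ 1` (so for all `d ≥ 3`):
the maximum in the definition of `vol^m_M` is attained and positive, `κ_d = π^{d/2} / Γ(d/2 + 1)` is
the greatest value of `vol^m_M(M)` over all `o`-symmetric convex bodies `M`, and a body attains it
if and only if it is an ellipsoid. -/
theorem result (d : ℕ) (hd : 1 ≤ d) :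
    (∀ M : Set (EuclideanSpace ℝ (Fin d)), IsBody M →
      IsGreatest (crossVolumes M) (sSup (crossVolumes M)) ∧ 0 < sSup (crossVolumes M)) ∧
    IsGreatest {r : ℝ | ∃ M : Set (EuclideanSpace ℝ (Fin d)), IsBody M ∧ r = gromovMass M}
      (√Real.pi ^ d / Real.Gamma (d / 2 + 1)) ∧
    ∀ M : Set (EuclideanSpace ℝ (Fin d)), IsBody M →
      (gromovMass M = √Real.pi ^ d / Real.Gamma (d / 2 + 1) ↔
        ∃ T : EuclideanSpace ℝ (Fin d) ≃ₗ[ℝ] EuclideanSpace ℝ (Fin d),
          M = T '' closedBall 0 1) := by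
  have hd' : 0 < d := hd
  refine ⟨fun M hM => ?_, ⟨?_, ?_⟩, fun M hM => ⟨fun h => ?_, ?_⟩⟩
  · obtain ⟨D, hD, hbd, v, hv, hvD⟩ := exists_D hd' hM
    have h1 := greatest hd' hD hbd hv hvD
    rw [h1.csSup_eq]
    exact ⟨h1, by positivity⟩
  · obtain ⟨h1, h2⟩ := mass_ellipsoid hd' (LinearEquiv.refl ℝ (EuclideanSpace ℝ (Fin d)))
    exact ⟨_, h1, h2.symm⟩
  · rintro _ ⟨M, hM, rfl⟩
    exact mass_le hd' hM
  · obtain ⟨D, hD, hbd, v, hv, hvD⟩ := exists_D hd' hM
    rw [mass_eq hd' hD hbd hv hvD, ← ball_vol hd', div_eq_iff hD.ne'] at h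
    have hvol : volume M = ENNReal.ofReal D * volume (ball (0 : EuclideanSpace ℝ (Fin d)) 1) := by
      have hfin : volume M ≠ ⊤ := hM.1.measure_lt_top.ne
      rw [← ENNReal.toReal_eq_toReal_iff' hfin
        (ENNReal.mul_ne_top ENNReal.ofReal_ne_top measure_ball_lt_top.ne), ENNReal.toReal_mul,
        ENNReal.toReal_ofReal hD.le, h, mul_comm]
    exact ellipsoid ⟨hM.1, hM.2.1, hM.2.2.1, hM.2.2.2, hbd, hvol⟩ hd'
  · rintro ⟨T, rfl⟩
    exact (mass_ellipsoid hd' T).2

end Pool.Agent.Results.MP_77d991_gt.GromovMass
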